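import Pool.Agent.Helper53.CTR.Goals

/-!
# PROJECT CTR (MP_8b4d68_lc): packet CTR-FCS
-/

set_option autoImplicit false

namespace Pool.Agent.Helper31.CTR

open Pool.Agent.Helper53.CTR
open Pool.Agent.Helper1.TE (Ch NumMach)
open Pool.Agent.Helper65.LinSpace (dig tab nrec ifz eq01 le01 lt01 capPow Ctx LS)

theorem acc_eq (ok : ℕ → ℕ → ℕ → ℕ → ℕ) (x : Sta) (n : ℕ) (hn : x.mo = n)
    (h : n ≠ 7) : (machM ok).acc x = 0 := by
  change eq01 x.mo 7 = 0
  rw [hn]
  exact if_neg h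

theorem toF_zero (h b : ℕ) : toF h b 0 0 = fun _ => (0, 0) := by
  funext j
  simp [toF, dig]

/-- Packet CTR-FCS. -/
theorem gFCS : GoalFCS := by
  intro hACC hFC0 hBS hstep ok w
  have hinv : ∀ x, (machM ok).Reach w x → Inv ok w x := by
    intro x hx
    unfold NumMach.Reach at hx
    induction hx with
    | refl => exact Inv.m0 0 (fun i hi => absurd hi (Nat.not_lt_zero i))
    | tail _ hbc ih =>
      obtain ⟨γ, hγ, rfl⟩ := hbc
      exact hstep ok w _ γ hγ ih
  refine ⟨hinv, ?_, ?_⟩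
  · rintro ⟨x, hx, hacc⟩
    cases hinv x hx with
    | rej => exact absurd (acc_eq ok _ 8 rfl (by decide)) hacc
    | m0 h h1 => exact absurd (acc_eq ok _ 0 rfl (by decide)) hacc
    | m1 h q h1 h2 h3 => exact absurd (acc_eq ok _ 1 rfl (by decide)) hacc
    | m2 h q b h1 h2 h3 h4 h5 => exact absurd (acc_eq ok _ 2 rfl (by decide)) hacc
    | m3 h q b c h1 => exact absurd (acc_eq ok _ 3 rfl (by decide)) hacc
    | m4 h q b c u h1 hu h2 => exact absurd (acc_eq ok _ 4 rfl (by decide)) hacc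
    | m5 h q b c u h1 hu => exact absurd (acc_eq ok _ 5 rfl (by decide)) hacc
    | m6 h q b c u τ g t D X S A h1 hτ hu hg hD ht hX hS hC =>
      exact absurd (acc_eq ok _ 6 rfl (by decide)) hacc
    | m7 h1 => exact h1
  · rintro ⟨h, q, b, c, hF, hroot⟩
    obtain ⟨-, -, h1, hq1, hb1, hcb, -⟩ := hF.1
    obtain ⟨s', hch⟩ := (hACC w h q b c h1 hq1 hb1 hcb).2 hroot
    have claim : ∀ (t : ℕ) (x s : (ℕ → ℕ × ℕ) × ℕ), Ch (opM w h q b c) (2 ^ b) t x s →
        x = (fun _ => (0, 0), 0) → t ≤ 9 ^ Nt h q →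
        (t < 9 ^ Nt h q → ∃ X S A, s = (toF h b X S, A) ∧ X < (2 ^ Eb b) ^ (2 * q + 3) ∧
          S < (2 ^ Fb h b) ^ (2 * q + 3) ∧
          (machM ok).Reach w (mainS h q b c 0 (2 ^ Et h q b c) t 0 0 (root h q) X S A)) ∧
        (t = 9 ^ Nt h q → (machM ok).Reach w accS) := by
      intro t x s hch
      induction hch with
      | zero s =>
        intro hx _
        refine ⟨fun _ => ⟨0, 0, 0, ?_, by positivity, by positivity,
          hFC0 ok w h q b c hF⟩, fun h0 => ?_⟩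
        · rw [hx, toF_zero]
        · have : 0 < 9 ^ Nt h q := by positivity
          omega
      | succ a a' ha ha' hch' hst ih =>
        intro hx ht
        obtain ⟨X, S, A, hs, hX, hS, hR⟩ := (ih hx (by omega)).1 (by omega)
        rw [hx, hs] at hch'
        rw [hs] at hst
        obtain ⟨g1, g2⟩ := hBS ok w h q b c _ a a' X S A _ hF (by omega) ha ha' hX hS hch' hR hst
        exact ⟨g2, g1⟩
    refine ⟨accS, (claim _ _ _ hch rfl le_rfl).2 rfl, ?_⟩
    show eq01 7 7 ≠ 0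
    simp [eq01]

end Pool.Agent.Helper31.CTR
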