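import Pool.Agent.Helper53.CTR.Goals
import Pool.Agent.Helper46.TE.MOK

/-!
# PROJECT CTR (MP_8b4d68_lc): packet CTR-FIN
-/

namespace Pool.Agent.Helper31.CTR

open Pool.Agent.Helper53.CTR
open Pool.Agent.Helper1.TE (NTM)
open Pool.Agent.Helper65.LinSpace (dig tab nrec ifz eq01 le01 lt01 capPow Ctx LS)
open Pool.Agent.Helper46.TE (enc_nat_zero enc_prod_zero)

theorem enc_start (ok : ℕ → ℕ → ℕ → ℕ → ℕ) (i : ℕ) : Ctx.enc (machM ok).start i = 0 := by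
  have h0 : ∀ j, Ctx.enc (0 : ℕ) j = 0 := enc_nat_zero
  have h2 : ∀ j, Ctx.enc ((0 : ℕ), (0 : ℕ)) j = 0 := enc_prod_zero _ h0 h0
  have h3 : ∀ j, Ctx.enc ((0 : ℕ), (0 : ℕ), (0 : ℕ)) j = 0 := enc_prod_zero _ h0 h2
  have h4 : ∀ j, Ctx.enc ((0 : ℕ), (0 : ℕ), (0 : ℕ), (0 : ℕ)) j = 0 := enc_prod_zero _ h0 h3
  have h5 : ∀ j, Ctx.enc ((0 : ℕ), (0 : ℕ), (0 : ℕ), (0 : ℕ), (0 : ℕ)) j = 0 :=
    enc_prod_zero _ h0 h4
  have h6 : ∀ j, Ctx.enc ((0 : ℕ), (0 : ℕ), (0 : ℕ), (0 : ℕ), (0 : ℕ), (0 : ℕ)) j = 0 :=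
    enc_prod_zero _ h0 h5
  have h7 : ∀ j, Ctx.enc ((0 : ℕ), (0 : ℕ), (0 : ℕ), (0 : ℕ), (0 : ℕ), (0 : ℕ), (0 : ℕ)) j = 0 :=
    enc_prod_zero _ h0 h6
  show Ctx.enc (((0, 0, 0, 0, 0, 0, 0), (0, 0, 0), (0, 0, 0, 0, 0, 0), (0, 0, 0)) : Sta) i = 0
  exact enc_prod_zero _ h7 (enc_prod_zero _ h3 (enc_prod_zero _ h6 h3)) i

/-- Packet CTR-FIN. -/
theorem gFIN : GoalFIN := by
  intro hCOM hLNX hFCS hFB hLG hAS C
  obtain ⟨hA1, K2, hK2, hA2⟩ := hAS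
  obtain ⟨K1, hK1, hA1⟩ := hA1 C
  set ok : ℕ → ℕ → ℕ → ℕ → ℕ := fun h q b c => le01 (q * b * Nat.log 2 b + h * c) (C * (h * q))
    with hok
  have hokLS : LS (fun x : ℕ × ℕ × ℕ × ℕ => ok x.1 x.2.1 x.2.2.1 x.2.2.2) := by
    rw [hok]
    fun_prop
  have hokD : ∀ h q b c : ℕ, ok h q b c ≠ 0 ↔ q * b * Nat.log 2 b + h * c ≤ C * (h * q) := by
    intro h q b c
    rw [hok]
    simp only [le01]
    split_ifs with hle
    · simp [hle]
    · simp [hle]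
  obtain ⟨l1, l2, l3⟩ := hLNX ok hokLS
  obtain ⟨k, M, c, hM⟩ := hCOM (machM ok) l1 l2 l3
    (fun a => by
      show eq01 a.mo 7 ≤ 1
      unfold eq01
      split_ifs <;> omega)
    (enc_start ok) rfl
  have hlang : CallTree {x | x.2.1 * x.2.2.1 * Nat.log 2 x.2.2.1 + x.1 * x.2.2.2 ≤
      C * (x.1 * x.2.1)} = LangM ok := by
    apply hLG
    intro h q b c
    rw [hokD]
    rfl
  rw [hlang]
  refine ⟨k, M, c * (K1 + K2 + 1), fun w => ?_⟩
  have hlog : 0 ≤ Real.log w.length := Real.log_natCast_nonneg _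
  set T : ℝ := (K1 + K2) * (Real.log w.length + 1) with hT
  have hT0 : 0 ≤ T := by positivity
  have hb : ∀ a, (machM ok).Reach w a → ∀ i, Ctx.enc a i < 2 ^ (Nat.floor T) := by
    intro a ha i
    rcases hFB ok w a ((hFCS ok w).1 a ha) with ⟨h, q, b, c', hF, henc⟩ | henc
    · refine lt_of_lt_of_le (henc i) (Nat.pow_le_pow_right (by norm_num) ?_)
      apply Nat.le_floor
      have hok' : ok h q b c' ≠ 0 := by
        have := hF.1
        unfold Hd at this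
        tauto
      refine (hA1 ok w h q b c' hF ((hokD h q b c').1 hok')).trans ?_
      rw [hT]
      nlinarith
    · have h1 : Nat.log 2 (w.length + 1) + 5 ≤ Nat.floor T := by
        apply Nat.le_floor
        refine (hA2 w.length).trans ?_
        rw [hT]
        nlinarith
      have h2 : w.length + 1 < 2 ^ (Nat.log 2 (w.length + 1) + 1) :=
        Nat.lt_pow_succ_log_self (by norm_num) _
      have h3 : 2 ^ (Nat.log 2 (w.length + 1) + 5) = 16 * 2 ^ (Nat.log 2 (w.length + 1) + 1) := by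
        rw [pow_succ, pow_succ, pow_succ, pow_succ]; ring
      calc Ctx.enc a i ≤ 2 * w.length + 9 := henc i
        _ < 2 ^ (Nat.log 2 (w.length + 1) + 5) := by rw [h3]; omega
        _ ≤ 2 ^ (Nat.floor T) := Nat.pow_le_pow_right (by norm_num) h1
  obtain ⟨hacc, hwi⟩ := hM w (Nat.floor T) hb
  refine ⟨?_, ?_⟩
  · rw [hacc, (hFCS ok w).2]
  · intro x hx i
    refine (hwi x hx i).trans ?_
    have h1 : (Nat.floor T : ℝ) ≤ T := Nat.floor_le hT0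
    have hc0 : (0 : ℝ) ≤ c := Nat.cast_nonneg c
    push_cast
    rw [mul_assoc]
    refine mul_le_mul_of_nonneg_left ?_ hc0
    rw [hT] at h1
    nlinarith

end Pool.Agent.Helper31.CTR
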