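import Pool.Agent.Helper53.CTR.Goals

/-!
# PROJECT CTR (MP_8b4d68_lc): packet CTR-PB
-/

set_option autoImplicit false

namespace Pool.Agent.Helper31.CTR

open Pool.Agent.Helper53.CTR

/-- Packet CTR-PB. -/
theorem gPB : GoalPB := by
  intro h q b c hh hq hb hc
  have hp : ∀ i j : ℕ, i ≤ j → 2 ^ i ≤ 2 ^ j := fun i j hij =>
    Nat.pow_le_pow_right (by norm_num) hij
  have hR : 1 ≤ Rb b := by
    unfold Rb
    omega
  have hP : Pb b ^ (4 * b + 2) ≤ 2 ^ Eb b := by
    unfold Eb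
    rw [mul_comm (4 * b + 2), pow_mul]
    exact Nat.pow_le_pow_left (Nat.lt_pow_succ_log_self (by norm_num) _).le _
  have hG : Gb b ^ (h + 1) ≤ 2 ^ Fb h b := by
    unfold Fb
    rw [mul_comm (h + 1), pow_mul]
    exact Nat.pow_le_pow_left (Nat.lt_pow_succ_log_self (by norm_num) _).le _
  have hEb : 1 ≤ Eb b := by
    unfold Eb
    nlinarith [Nat.zero_le (Nat.log 2 (Pb b))]
  have hFb : h + 1 ≤ Fb h b := by
    unfold Fb
    nlinarith [Nat.zero_le (Nat.log 2 (Gb b))]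
  have hEt : Et h q b c = (2 * q + 3) * (Eb b + Fb h b) + 4 * Nt h q + 4 * b +
    c * (h + 2) + 4 := rfl
  set E := Et h q b c with hE
  set e := Eb b
  set f := Fb h b
  set N := Nt h q
  have h1 : (2 * q + 3) * (e + f) = (2 * q + 3) * e + (2 * q + 3) * f := by ring
  have h2 : e ≤ (2 * q + 3) * e := Nat.le_mul_of_pos_left _ (by omega)
  have h3 : f ≤ (2 * q + 3) * f := Nat.le_mul_of_pos_left _ (by omega)
  have h4 : 2 * q + 3 ≤ (2 * q + 3) * e := Nat.le_mul_of_pos_right _ (by omega)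
  rw [h1] at hEt
  have hlt : E < 2 ^ E := Nat.lt_two_pow_self
  refine ⟨hR, hP, hG, ?_, ?_, hp _ _ (by omega), hp _ _ (by omega), hp _ _ (by omega), ?_,
    hp _ _ (by omega), ?_, hp _ _ (by omega), hp _ _ (by omega), hP.trans (hp _ _ (by omega)),
    by omega, by omega, by omega, by omega, ?_⟩
  · rw [← pow_mul]
    exact hp _ _ (by rw [mul_comm]; omega)
  · rw [← pow_mul]
    exact hp _ _ (by rw [mul_comm]; omega)
  · calc 4 ^ b = 2 ^ (2 * b) := by
          rw [pow_mul]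
          norm_num
      _ ≤ 2 ^ E := hp _ _ (by omega)
  · calc 9 ^ N ≤ 16 ^ N := Nat.pow_le_pow_left (by norm_num) _
      _ = 2 ^ (4 * N) := by
          rw [pow_mul]
          norm_num
      _ ≤ 2 ^ E := hp _ _ (by omega)
  · calc 8 < 2 ^ 4 := by norm_num
      _ ≤ 2 ^ E := hp _ _ (by omega)

end Pool.Agent.Helper31.CTR
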